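import Mathlib

/-!
# Twisted group algebra operators and traces

For a finite Galois extension `L/K` with group `G` and a function `c : G → L` we consider the
`K`-linear operator `op c : x ↦ ∑ g, c g * g⁻¹ x`.
-/

set_option autoImplicit false

namespace Pool.Agent.R660.HG

open Polynomial Matrix

section TraceIntegral

variable {R K : Type*} [CommRing R] [Field K] [Algebra R K]

/-- The trace of a matrix over a field that is killed by a monic polynomial over `R` is integral
over `R`. -/
theorem isIntegral_matrix_trace {n : Type*} [Fintype n] [DecidableEq n] (M : Matrix n n K)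
    (P : R[X]) (hP : P.Monic) (h : aeval M (P.map (algebraMap R K)) = 0) :
    IsIntegral R M.trace := by
  classical
  let F := AlgebraicClosure K
  let M' : Matrix n n F := M.map (algebraMap K F)
  have hM' : aeval M' ((P.map (algebraMap R K)).map (algebraMap K F)) = 0 := by
    have h1 := congrArg (fun N => (algebraMap K F).mapMatrix N) h
    simp only [map_zero] at h1
    rw [← h1, aeval_def, eval₂_map, aeval_def, hom_eval₂]
    congr 1
    ext r i j
    by_cases hij : i = j
    · subst hij
      simp [Matrix.algebraMap_matrix_apply]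
    · simp [Matrix.algebraMap_matrix_apply, hij]
  have h2 : IsIntegral R M'.trace := by
    rw [Matrix.trace_eq_sum_roots_charpoly]
    refine Multiset.sum_induction (IsIntegral R) _ (fun a b ha hb => ha.add hb) isIntegral_zero ?_
    intro μ hμ
    have hμ' : μ ∈ spectrum F M' := by
      rw [Matrix.mem_spectrum_iff_isRoot_charpoly]
      exact isRoot_of_mem_roots hμ
    have h3 := spectrum.subset_polynomial_aeval M'
      ((P.map (algebraMap R K)).map (algebraMap K F)) ⟨μ, hμ', rfl⟩
    rw [hM'] at h3
    rcases isEmpty_or_nonempty n with hn | hn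
    · exfalso
      have : Subsingleton (Matrix n n F) := inferInstance
      rw [spectrum.mem_iff] at h3
      exact h3 (isUnit_of_subsingleton _)
    · rw [spectrum.zero_eq] at h3
      refine ⟨P, hP, ?_⟩
      simp only [Set.mem_singleton_iff] at h3
      rw [Polynomial.map_map, ← IsScalarTower.algebraMap_eq, eval_map] at h3
      exact h3
  have h4 : M'.trace = algebraMap K F M.trace := by
    simp [M', Matrix.trace, map_sum]
  rw [h4] at h2
  exact (isIntegral_algebraMap_iff (algebraMap K F).injective).1 h2

theorem isIntegral_linear_trace {V : Type*} [AddCommGroup V] [Module K V] [FiniteDimensional K V]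
    (φ : Module.End K V)
    (P : R[X]) (hP : P.Monic) (h : aeval φ (P.map (algebraMap R K)) = 0) :
    IsIntegral R (LinearMap.trace K V φ) := by
  classical
  let b := Module.finBasis K V
  rw [LinearMap.trace_eq_matrix_trace K b]
  apply isIntegral_matrix_trace _ P hP
  have h1 := congrArg (LinearMap.toMatrixAlgEquiv b) h
  rw [map_zero] at h1
  rw [← h1]
  exact Polynomial.aeval_algHom_apply (LinearMap.toMatrixAlgEquiv b).toAlgHom φ _

end TraceIntegral

section Ops

variable {G L : Type*} [Group G] [Field L] [MulSemiringAction G L]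

/-- `c(k g k⁻¹) = k(c(g))`. -/
def Eqv (c : G → L) : Prop := ∀ k g, c (k * g * k⁻¹) = k • c g

variable [Fintype G]

/-- The operator `x ↦ ∑ g, c g * g⁻¹ x`. -/
noncomputable def op (c : G → L) (x : L) : L := ∑ g, c g * g⁻¹ • x

/-- convolution -/
noncomputable def conv (c c' : G → L) (g : G) : L := ∑ k, c k * c' (k⁻¹ * g)

theorem op_conv (c c' : G → L) (h' : Eqv c') (x : L) : op (conv c c') x = op c (op c' x) := by
  simp only [op, conv, Finset.sum_mul, Finset.smul_sum, smul_mul', Finset.mul_sum]
  rw [Finset.sum_comm]
  refine Finset.sum_congr rfl fun k _ => ?_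
  refine Fintype.sum_equiv ((Equiv.mulRight k⁻¹)) _ _ fun g => ?_
  simp only [Equiv.coe_mulRight]
  have h1 : k⁻¹ • (c' (g * k⁻¹)) = c' (k⁻¹ * g) := by
    rw [← h' k⁻¹ (g * k⁻¹)]
    congr 1
    group
  rw [h1, mul_assoc]
  congr 2
  rw [← mul_smul]
  congr 1
  group

theorem op_comm (c : G → L) (h : Eqv c) (k : G) (x : L) :
    op c (k • x) = k • (op c x) := by
  rw [op, op, Finset.smul_sum]
  refine Fintype.sum_equiv (MulAut.conj k⁻¹).toEquiv _ _ fun g => ?_
  simp only [smul_mul']
  have h1 : k • (c ((MulAut.conj k⁻¹).toEquiv g)) = c g := by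
    rw [← h]
    congr 1
    simp
    try group
  rw [h1]
  congr 1
  rw [← mul_smul, ← mul_smul]
  congr 1
  simp
  try group

theorem conv_eqv (c c' : G → L) (hc : Eqv c) (hc' : Eqv c') : Eqv (conv c c') := by
  intro k g
  rw [conv, conv, Finset.smul_sum]
  refine (Fintype.sum_equiv (MulAut.conj k).toEquiv _ _ fun m => ?_).symm
  rw [smul_mul', ← hc, ← hc']
  congr 2
  simp
  try group

theorem op_add (c c' : G → L) (x : L) : op (c + c') x = op c x + op c' x := by
  simp [op, add_mul, Finset.sum_add_distrib]

theorem op_zero (x : L) : op (0 : G → L) x = 0 := by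
  simp [op]

variable {K : Type*} [Field K] [Algebra K L] [FiniteDimensional K L] [IsGaloisGroup G K L]

theorem trace_eq_sum_smul (x : L) : algebraMap K L (Algebra.trace K L x) = ∑ g : G, g • x := by
  have hG : IsGalois K L := IsGaloisGroup.isGalois G K L
  rw [trace_eq_sum_automorphisms]
  exact (Fintype.sum_equiv (IsGaloisGroup.mulEquivAlgEquiv G K L).toEquiv _ _ fun g => rfl).symm

theorem orth {ι : Type*} [Fintype ι] [DecidableEq ι] [DecidableEq G] [Algebra.IsSeparable K L]
    (b : Module.Basis ι K L) (g g' : G) :
    ∑ i, g • (b.traceDual i) * g' • (b i) = if g = g' then 1 else 0 := by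
  let A : Matrix ι G L := Matrix.of fun i g => g • (b i)
  let D : Matrix G ι L := Matrix.of fun g i => g • (b.traceDual i)
  have hc : Fintype.card ι = Fintype.card G := by
    rw [← Nat.card_eq_fintype_card (α := G), IsGaloisGroup.card_eq_finrank G K L,
      Module.finrank_eq_card_basis b]
  have h1 : A * D = 1 := by
    ext i j
    rw [Matrix.mul_apply, Matrix.one_apply]
    simp only [A, D, Matrix.of_apply, ← smul_mul']
    rw [← trace_eq_sum_smul (K := K), Module.Basis.trace_mul_traceDual]
    split_ifs <;> simp
  have h2 : D * A = 1 := (Matrix.mul_eq_one_comm_of_equiv (Fintype.equivOfCardEq hc)).1 h1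
  have h3 := congrFun (congrFun h2 g) g'
  rw [Matrix.mul_apply, Matrix.one_apply] at h3
  exact h3

variable (K) in
/-- `op c` as a `K`-linear map -/
noncomputable def opK (c : G → L) : L →ₗ[K] L where
  toFun x := op c x
  map_add' x y := by
    simp [op, smul_add, mul_add, Finset.sum_add_distrib]
  map_smul' r x := by
    have : SMulCommClass G K L := IsGaloisGroup.commutes
    simp only [op, RingHom.id_apply, Finset.smul_sum]
    refine Finset.sum_congr rfl fun g _ => ?_
    rw [smul_comm g⁻¹ r x, mul_smul_comm]

omit [FiniteDimensional K L] in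
theorem opK_apply (c : G → L) (x : L) : opK K c x = op c x := rfl

/-- The trace of `op c` is `∑ g, g (c 1)`. -/
theorem trace_opK (c : G → L) :
    algebraMap K L (LinearMap.trace K L (opK K c)) = ∑ g : G, g • (c 1) := by
  classical
  have hG : IsGalois K L := IsGaloisGroup.isGalois G K L
  let b := Module.finBasis K L
  rw [LinearMap.trace_eq_matrix_trace K b.traceDual]
  have h0 : ∀ i, (LinearMap.toMatrix b.traceDual b.traceDual) (opK K c) i i =
      Algebra.trace K L (op c (b.traceDual i) * b i) := by
    intro i
    rw [LinearMap.toMatrix_apply, Module.Basis.traceDual_repr_apply, Algebra.traceForm_apply]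
    rfl
  have h0' : ∀ i, algebraMap K L (Algebra.trace K L (op c (b.traceDual i) * b i)) =
      ∑ g : G, ∑ k : G, g • (c k) * g • (k⁻¹ • (b.traceDual i)) * g • (b i) := by
    intro i
    rw [trace_eq_sum_smul (G := G)]
    refine Finset.sum_congr rfl fun g _ => ?_
    rw [op, smul_mul', Finset.smul_sum, Finset.sum_mul]
    refine Finset.sum_congr rfl fun k _ => ?_
    rw [smul_mul']
  simp only [Matrix.trace, Matrix.diag_apply, h0, map_sum, h0']
  rw [Finset.sum_comm]
  refine Finset.sum_congr rfl fun g _ => ?_
  rw [Finset.sum_comm]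
  have h1 : ∀ k : G, ∑ i, g • (c k) * g • (k⁻¹ • (b.traceDual i)) * g • (b i) =
      if k = 1 then g • (c 1) else 0 := by
    intro k
    simp only [mul_assoc]
    rw [← Finset.mul_sum]
    have h2 := orth (K := K) b (g * k⁻¹) g
    simp only [mul_smul] at h2
    rw [h2]
    by_cases hk : k = 1
    · subst hk; simp
    · simp [hk]
  rw [Finset.sum_congr rfl fun k _ => h1 k]
  simp

omit [FiniteDimensional K L] [IsGaloisGroup G K L] [Algebra K L] [Field K] in
/-- The element with `c k = ∑ g, (k g)(x) * g(d)`. -/
noncomputable def elt (x d : L) (k : G) : L := ∑ g : G, (k * g) • x * g • d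

omit [FiniteDimensional K L] [IsGaloisGroup G K L] [Algebra K L] [Field K] in
theorem elt_eqv (x d : L) : Eqv (G := G) (elt x d) := by
  intro k m
  rw [elt, elt, Finset.smul_sum]
  refine Fintype.sum_equiv (Equiv.mulLeft k⁻¹) _ _ fun g => ?_
  simp only [Equiv.coe_mulLeft, smul_mul']
  rw [← mul_smul, ← mul_smul]
  have e1 : k * (m * (k⁻¹ * g)) = k * m * k⁻¹ * g := by group
  have e2 : k * (k⁻¹ * g) = g := by group
  rw [e1, e2]

theorem op_elt (x d z : L) :
    op (G := G) (elt x d) z = ∑ g : G, g • x * algebraMap K L (Algebra.trace K L (g • d * z)) := by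
  rw [op]
  simp only [elt, Finset.sum_mul, trace_eq_sum_smul (G := G), Finset.mul_sum]
  rw [Finset.sum_comm' (t' := Finset.univ) (s' := fun _ => Finset.univ) (by simp)]
  rw [← Finset.sum_product', ← Finset.sum_product']
  refine Finset.sum_bij' (fun p _ => (p.2 * p.1, p.2⁻¹)) (fun q _ => (q.2 * q.1, q.2⁻¹))
    (by simp) (by simp) ?_ ?_ ?_
  · rintro ⟨g, k⟩ _; simp
  · rintro ⟨g, k⟩ _; simp
  · rintro ⟨g, k⟩ _
    simp only [smul_mul']
    rw [mul_assoc]
    congr 2
    rw [← mul_smul]
    congr 1
    group

theorem conv_elt (c : G → L) (hc : Eqv c) (x d : L) :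
    conv c (elt x d) 1 = algebraMap K L (Algebra.trace K L (d * op c x)) := by
  rw [trace_eq_sum_smul (G := G)]
  simp only [conv, elt, mul_one]
  have h1 : ∀ g : G, g • (d * op c x) = ∑ k, c k * ((k⁻¹ * g) • x * g • d) := by
    intro g
    rw [smul_mul', ← op_comm c hc, op, Finset.mul_sum]
    refine Finset.sum_congr rfl fun k _ => ?_
    rw [mul_smul]
    ring
  rw [Finset.sum_congr rfl fun g _ => h1 g, Finset.sum_comm]
  refine Finset.sum_congr rfl fun k _ => ?_
  rw [Finset.mul_sum]

variable (K) in
theorem opK_injective (c c' : G → L) (h : opK K c = opK K c') : c = c' := by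
  classical
  have hG : IsGalois K L := IsGaloisGroup.isGalois G K L
  let b := Module.finBasis K L
  have key : ∀ (c : G → L) (m : G),
      c m = ∑ i, opK K c (b.traceDual i) * m⁻¹ • (b i) := by
    intro c m
    simp only [opK_apply, op, Finset.sum_mul]
    rw [Finset.sum_comm]
    have h1 : ∀ k : G, ∑ i, c k * k⁻¹ • (b.traceDual i) * m⁻¹ • (b i) =
        if k = m then c m else 0 := by
      intro k
      simp only [mul_assoc]
      rw [← Finset.mul_sum, orth (K := K) b k⁻¹ m⁻¹]
      by_cases hk : k = m
      · subst hk; simp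
      · simp [hk]
    rw [Finset.sum_congr rfl fun k _ => h1 k]
    simp
  ext m
  rw [key c, key c', h]

end Ops

end Pool.Agent.R660.HG
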