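import Pool.Agent.R660.HG.Basic

/-!
# The canonical nonclassical Hopf-Galois structure and its associated order

Definitions for `MP_46c6cb_nt`. Here `G` is a group acting on the field `L` by ring automorphisms
(in the application `L/K` is a finite Galois extension with group `G`).
-/

set_option autoImplicit false

namespace Pool.Agent.R660.HG

/-! ### The Hopf algebra `H_λ` -/

section Hopf

/-- The left regular representation `λ : G → Perm(G)`, `λ(g)(h) = g h`. -/
def lam (G : Type*) [Group G] : G →* Equiv.Perm G where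
  toFun g := Equiv.mulLeft g
  map_one' := by ext; simp
  map_mul' g h := by ext; simp

/-- `N = λ(G)`, a subgroup of `Perm(G)`. -/
def N (G : Type*) [Group G] : Subgroup (Equiv.Perm G) := (lam G).range

/-- `λ` with values in `N = λ(G)`. -/
def lamN (G : Type*) [Group G] : G →* N G := (lam G).rangeRestrict

/-- The group algebra `L[N]`. -/
abbrev LN (G L : Type*) [Group G] [Field L] : Type _ := MonoidAlgebra L (N G)

noncomputable instance instRingLN (G L : Type*) [Group G] [Field L] : Ring (LN G L) :=
  MonoidAlgebra.ring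

noncomputable instance instAlgebraLN (G K L : Type*) [Group G] [Field K] [Field L]
    [Algebra K L] : Algebra K (LN G L) :=
  MonoidAlgebra.algebra

variable {G K L : Type*} [Group G] [Field K] [Field L] [MulSemiringAction G L] [Algebra K L]

/-- `n ↦ λ(g) n λ(g)⁻¹` on `N`. -/
def conjN (g : G) (n : N G) : N G := lamN G g * n * (lamN G g)⁻¹

/-- The action of `g ∈ G` on `L[N]`: `g·(∑ c_n n) = ∑ g(c_n) λ(g) n λ(g)⁻¹`. -/
noncomputable def gact (g : G) (c : LN G L) : LN G L :=
  c.coeff.sum fun n a => MonoidAlgebra.single (conjN g n) (g • a)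

/-- The action of an element of `L[N]` on `L`: `(∑ c_n n)·x = ∑ c_n (n⁻¹(1_G))(x)`. -/
noncomputable def act (c : LN G L) (x : L) : L :=
  c.coeff.sum fun n a => a * ((n : Equiv.Perm G)⁻¹ 1) • x

theorem lamN_surjective (G : Type*) [Group G] : Function.Surjective (lamN G) :=
  MonoidHom.rangeRestrict_surjective _

@[simp] theorem lamN_apply {G : Type*} [Group G] (g h : G) :
    ((lamN G g : N G) : Equiv.Perm G) h = g * h := rfl

theorem lamN_injective (G : Type*) [Group G] : Function.Injective (lamN G) := by
  intro g h hgh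
  have h1 := congrArg (fun n : N G => (n : Equiv.Perm G) 1) hgh
  simpa using h1

theorem lamN_inv_one {G : Type*} [Group G] (g : G) :
    ((lamN G g : N G) : Equiv.Perm G)⁻¹ 1 = g⁻¹ := by
  rw [Equiv.Perm.inv_eq_iff_eq]
  simp

/-- The coefficient of `λ(g)`. -/
noncomputable def cf (c : LN G L) (g : G) : L := c.coeff (lamN _ g)

omit [MulSemiringAction G L] in
theorem cf_injective : Function.Injective (cf (G := G) (L := L)) := by
  intro c c' h
  apply MonoidAlgebra.coeff_injective
  ext m
  obtain ⟨g, rfl⟩ := lamN_surjective _ m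
  exact congrFun h g

omit [MulSemiringAction G L] in
theorem cf_add (c c' : LN G L) : cf (c + c') = cf c + cf c' := by
  ext g
  simp [cf]

omit [MulSemiringAction G L] in
theorem cf_neg (c : LN G L) : cf (-c) = -cf c := by
  ext g
  simp [cf]

omit [MulSemiringAction G L] in
theorem cf_zero : cf (0 : LN G L) = 0 := by
  ext g
  simp [cf]

omit [MulSemiringAction G L] in
theorem cf_smul (r : K) (c : LN G L) :
    cf (r • c) = r • cf c := by
  ext g
  rw [cf, Pi.smul_apply, cf]
  exact MonoidAlgebra.coeff_smul_apply r c _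

theorem gact_coeff (g : G) (c : LN G L) (m : N G) :
    (gact g c).coeff m = g • (c.coeff ((lamN _ g)⁻¹ * m * lamN _ g)) := by
  classical
  rw [gact, Finsupp.sum, MonoidAlgebra.coeff_sum, Finsupp.finsetSum_apply]
  simp only [MonoidAlgebra.coeff_single, Finsupp.single_apply]
  have h1 : ∀ n : N G, (conjN g n = m) ↔
      n = (lamN _ g)⁻¹ * m * lamN _ g := by
    intro n
    rw [conjN]
    constructor
    · rintro rfl; group
    · rintro rfl; group
  simp only [h1]
  rw [Finset.sum_ite_eq']
  split_ifs with h
  · rfl
  · rw [Finsupp.notMem_support_iff.1 h, smul_zero]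

theorem gact_eq_iff (c : LN G L) :
    (∀ g : G, gact g c = c) ↔ Eqv (cf c) := by
  constructor
  · intro h k g
    rw [cf, cf]
    conv_lhs => rw [← h k]
    rw [gact_coeff]
    congr 2
    simp only [map_mul, map_inv]
    group
  · intro h k
    apply MonoidAlgebra.coeff_injective
    ext m
    rw [gact_coeff]
    obtain ⟨g, rfl⟩ := lamN_surjective _ m
    rw [← map_inv, ← map_mul, ← map_mul]
    have h2 := h k (k⁻¹ * g * k)
    rw [cf, cf] at h2
    rw [← h2]
    congr 2
    group

theorem lamN_bijective : Function.Bijective (lamN G) :=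
  ⟨lamN_injective _, lamN_surjective _⟩

/-- `G ≃ N` -/
noncomputable def lamE : G ≃ N G :=
  Equiv.ofBijective _ lamN_bijective

theorem lamE_apply (g : G) : lamE g = lamN _ g := rfl

section Fin

variable [Fintype G]

noncomputable instance : Fintype (N G) :=
  Fintype.ofBijective _ lamN_bijective

omit [MulSemiringAction G L] in
theorem cf_mul (c c' : LN G L) : cf (c * c') = conv (cf c) (cf c') := by
  ext g
  have h0 : cf (c * c') g = c.coeff.sum fun h r => r * c'.coeff (h⁻¹ * lamN _ g) :=
    MonoidAlgebra.coeff_mul_apply_left c c' _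
  rw [h0, Finsupp.sum_fintype _ _ (by simp)]
  rw [conv]
  refine (Fintype.sum_equiv lamE _ _ fun k => ?_).symm
  rw [cf, cf, lamE_apply, map_mul, map_inv]

theorem act_eq (c : LN G L) (x : L) : act c x = op (cf c) x := by
  rw [act, op, Finsupp.sum_fintype _ _ (by simp)]
  refine (Fintype.sum_equiv lamE _ _ fun k => ?_).symm
  rw [cf, lamE_apply, lamN_inv_one]

end Fin

omit [MulSemiringAction G L] in
theorem cf_algebraMap [DecidableEq G] (r : K) (g : G) :
    cf (algebraMap K (LN G L) r) g = if g = 1 then algebraMap K L r else 0 := by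
  classical
  have h0 : cf (algebraMap K (LN G L) r) g =
      (MonoidAlgebra.single (1 : N G) (algebraMap K L r)).coeff (lamN _ g) := rfl
  rw [h0, MonoidAlgebra.coeff_single, Finsupp.single_apply]
  by_cases hg : g = 1
  · subst hg; simp
  · rw [if_neg hg, if_neg]
    intro h
    apply hg
    apply lamN_injective
    rw [← h, map_one]

section Sub

variable [Finite G] [SMulCommClass G K L]

variable (G K L)

/-- `H_λ = L[N]^G`, a `K`-subalgebra of `L[N]`. -/
noncomputable def Hlam : Subalgebra K (LN G L) where
  carrier := {c | ∀ g : G, gact g c = c}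
  mul_mem' := by
    have := Fintype.ofFinite G
    intro a b ha hb
    have ha' := (gact_eq_iff a).1 ha
    have hb' := (gact_eq_iff b).1 hb
    refine (gact_eq_iff _).2 ?_
    rw [cf_mul]
    exact conv_eqv _ _ ha' hb'
  add_mem' := by
    intro a b ha hb
    have ha' := (gact_eq_iff a).1 ha
    have hb' := (gact_eq_iff b).1 hb
    refine (gact_eq_iff _).2 ?_
    intro k g
    rw [cf_add, Pi.add_apply, Pi.add_apply, smul_add, ha', hb']
  algebraMap_mem' := by
    classical
    intro r
    refine (gact_eq_iff _).2 ?_
    intro k g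
    rw [cf_algebraMap, cf_algebraMap]
    by_cases hg : g = 1
    · subst hg; simp
    · simp [hg]

variable {G K L}

theorem mem_Hlam {c : LN G L} : c ∈ Hlam G K L ↔ Eqv (cf c) :=
  gact_eq_iff c

end Sub

variable [Fintype G] [SMulCommClass G K L]

theorem act_mul (c c' : LN G L) (hc' : c' ∈ Hlam G K L) (x : L) :
    act (c * c') x = act c (act c' x) := by
  rw [act_eq, act_eq, act_eq, cf_mul, op_conv _ _ (mem_Hlam.1 hc')]

omit [SMulCommClass G K L] in
theorem act_algebraMap (r : K) (x : L) :
    act (algebraMap K (LN G L) r) x = algebraMap K L r * x := by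
  classical
  rw [act_eq, op]
  have h1 : ∀ g : G, cf (algebraMap K (LN G L) r) g * g⁻¹ • x =
        if g = 1 then algebraMap K L r * x else 0 := by
    intro g
    rw [cf_algebraMap]
    by_cases hg : g = 1
    · subst hg; simp
    · simp [hg]
  rw [Finset.sum_congr rfl fun g _ => h1 g]
  simp

theorem act_add (c c' : LN G L) (x : L) : act (c + c') x = act c x + act c' x := by
  rw [act_eq, act_eq, act_eq, cf_add, op_add]

theorem act_neg (c : LN G L) (x : L) : act (-c) x = -act c x := by
  rw [act_eq, act_eq, cf_neg]
  simp [op]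

theorem act_zero (x : L) : act (0 : LN G L) x = 0 := by
  rw [act_eq, cf_zero, op_zero]

omit [SMulCommClass G K L] in
theorem act_smul (r : K) (c : LN G L) (x : L) : act (r • c) x = r • act c x := by
  rw [act_eq, act_eq, cf_smul, op, op, Finset.smul_sum]
  simp

end Hopf

/-! ### Associated orders and maximal orders -/

section Orders

/-- The associated order of a subring `B` of `L` in `H_λ`: `{h ∈ H_λ : h·B ⊆ B}`, a subring of
`L[N]` contained in `H_λ`. -/
noncomputable def assocOrder (G K : Type*) {L : Type*} [Group G] [Finite G] [Field K] [Field L]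
    [MulSemiringAction G L] [Algebra K L] [SMulCommClass G K L] (B : Subring L) :
    Subring (LN G L) where
  carrier := {h | h ∈ Hlam G K L ∧ ∀ x ∈ B, act h x ∈ B}
  mul_mem' := by
    have := Fintype.ofFinite G
    intro a b ha hb
    refine ⟨(Hlam G K L).mul_mem ha.1 hb.1, fun x hx => ?_⟩
    rw [act_mul (K := K) _ _ hb.1]
    exact ha.2 _ (hb.2 _ hx)
  one_mem' := by
    have := Fintype.ofFinite G
    refine ⟨(Hlam G K L).one_mem, fun x hx => ?_⟩
    have h1 := act_algebraMap (G := G) (1 : K) x
    rw [map_one, map_one, one_mul] at h1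
    rw [h1]
    exact hx
  add_mem' := by
    have := Fintype.ofFinite G
    intro a b ha hb
    refine ⟨(Hlam G K L).add_mem ha.1 hb.1, fun x hx => ?_⟩
    rw [act_add]
    exact B.add_mem (ha.2 _ hx) (hb.2 _ hx)
  zero_mem' := by
    have := Fintype.ofFinite G
    refine ⟨(Hlam G K L).zero_mem, fun x hx => ?_⟩
    rw [act_zero]
    exact B.zero_mem
  neg_mem' := by
    have := Fintype.ofFinite G
    intro a ha
    refine ⟨(Hlam G K L).neg_mem ha.1, fun x hx => ?_⟩
    rw [act_neg]
    exact B.neg_mem (ha.2 _ hx)

/-- `Λ` is an `O`-order in the `K`-algebra `H` (a `K`-subalgebra of `A`), for a subring `O` of the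
field `K`: `Λ` is a subring containing `O`, it is a finitely generated `O`-module, and its
`K`-span is `H`. -/
structure IsOrder {K A : Type*} [Field K] [Ring A] [Algebra K A] (O : Subring K)
    (H : Subalgebra K A) (Λ : Subring A) : Prop where
  algebraMap_mem : ∀ r ∈ O, algebraMap K A r ∈ Λ
  fg : ∃ s : Finset A, (Submodule.span O (s : Set A) : Set A) = Λ
  span_eq : Submodule.span K (Λ : Set A) = Subalgebra.toSubmodule H

/-- `Λ` is a maximal `O`-order in `H`: it is an `O`-order and no `O`-order in `H` properly
contains it. -/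
def IsMaximalOrder {K A : Type*} [Field K] [Ring A] [Algebra K A] (O : Subring K)
    (H : Subalgebra K A) (Λ : Subring A) : Prop :=
  IsOrder O H Λ ∧ ∀ Λ' : Subring A, IsOrder O H Λ' → Λ ≤ Λ' → Λ' = Λ

end Orders

end Pool.Agent.R660.HG
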