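import Pool.Agent.R660.HG.Defs

/-!
# Maximality of the associated order: the general argument
-/

set_option autoImplicit false

namespace Pool.Agent.R660.HG

open Polynomial nonZeroDivisors

variable {G K L : Type*} [Group G] [Fintype G] [Field K] [Field L] [MulSemiringAction G L]
  [Algebra K L] [FiniteDimensional K L] [IsGaloisGroup G K L]

/-- The element of `L[N]` with given coefficients. -/
noncomputable def mk (c : G → L) : LN G L :=
  MonoidAlgebra.ofCoeff (Finsupp.equivFunOnFinite.symm fun n => c (lamE.symm n))

omit [MulSemiringAction G L] in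
theorem cf_mk (c : G → L) : cf (mk c) = c := by
  ext g
  rw [cf, mk, MonoidAlgebra.coeff_ofCoeff, Finsupp.equivFunOnFinite_symm_apply_apply, ← lamE_apply,
    Equiv.symm_apply_apply]

variable (G K L) in
/-- the action of `H_λ` on `L` as an algebra homomorphism -/
noncomputable def actHom : Hlam G K L →ₐ[K] Module.End K L where
  toFun h := opK K (cf (h : LN G L))
  map_one' := by
    ext x
    rw [opK_apply, ← act_eq]
    have h1 := act_algebraMap (G := G) (1 : K) x
    rw [map_one] at h1
    rw [OneMemClass.coe_one, h1]
    simp
  map_mul' a b := by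
    ext x
    rw [opK_apply, ← act_eq, MulMemClass.coe_mul, act_mul (K := K) _ _ b.2, act_eq, act_eq]
    rfl
  map_zero' := by
    ext x
    rw [opK_apply, ZeroMemClass.coe_zero, cf_zero, op_zero]
    rfl
  map_add' a b := by
    ext x
    rw [opK_apply, ← act_eq, AddMemClass.coe_add, act_add, act_eq, act_eq]
    rfl
  commutes' r := by
    ext x
    rw [opK_apply, ← act_eq]
    have h1 := act_algebraMap (G := G) r x
    rw [Subalgebra.coe_algebraMap, h1]
    simp [Algebra.smul_def]

omit [FiniteDimensional K L] in
theorem actHom_apply (h : Hlam G K L) (x : L) : actHom G K L h x = act (h : LN G L) x := by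
  rw [act_eq]
  rfl

section Generic

variable {O : Subring K}

theorem trace_integral (u : LN G L) (hu : u ∈ Hlam G K L) (hi : IsIntegral O u) :
    IsIntegral O (LinearMap.trace K L (opK K (cf u))) := by
  obtain ⟨P, hP, hP0⟩ := hi
  refine isIntegral_linear_trace _ P hP ?_
  have h0 : aeval u (P.map (algebraMap O K)) = 0 := by
    rw [aeval_map_algebraMap]
    exact hP0
  have h1 : aeval (⟨u, hu⟩ : Hlam G K L) (P.map (algebraMap O K)) = 0 := by
    apply Subtype.ext
    have h3 := aeval_algHom_apply (Hlam G K L).val ⟨u, hu⟩ (P.map (algebraMap O K))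
    exact h3.symm.trans h0
  have h2 : opK K (cf u) = actHom G K L ⟨u, hu⟩ := rfl
  rw [h2, aeval_algHom_apply, h1, map_zero]

variable [IsDedekindDomain O] [IsFractionRing O K] {B : Subring L}

omit [IsDedekindDomain O] [IsFractionRing O K] in
theorem smul_integral (g : G) {x : L} (hx : IsIntegral O x) : IsIntegral O (g • x) := by
  have h1 : g • x = IsGaloisGroup.mulEquivAlgEquiv G K L g x := rfl
  rw [h1]
  exact hx.map ((IsGaloisGroup.mulEquivAlgEquiv G K L g).toAlgHom.restrictScalars O)

theorem assoc_isOrder (hB : ∀ x, x ∈ B ↔ IsIntegral O x) :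
    IsOrder O (Hlam G K L) (assocOrder G K B) := by
  classical
  have hGal : IsGalois K L := IsGaloisGroup.isGalois G K L
  constructor
  · intro r hr
    refine ⟨(Hlam G K L).algebraMap_mem r, fun x hx => ?_⟩
    rw [act_algebraMap]
    refine B.mul_mem ?_ hx
    rw [hB]
    exact isIntegral_algebraMap (R := O) (x := ⟨r, hr⟩)
  · obtain ⟨s, b, hb⟩ := FiniteDimensional.exists_is_basis_integral O K L
    have hN : IsNoetherian O (integralClosure O L) :=
      IsIntegralClosure.isNoetherian O K L (integralClosure O L)
    let M : Submodule O (LN G L) :=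
      { carrier := assocOrder G K B
        add_mem' := fun ha hb => (assocOrder G K B).add_mem ha hb
        zero_mem' := (assocOrder G K B).zero_mem
        smul_mem' := by
          intro r a ha
          refine ⟨(Hlam G K L).smul_mem ha.1 (r : K), fun x hx => ?_⟩
          have h1 : act (r • a) x = (r : K) • act a x := act_smul (r : K) a x
          rw [h1, Algebra.smul_def]
          refine B.mul_mem ?_ (ha.2 x hx)
          rw [hB]
          exact isIntegral_algebraMap (R := O) (x := r) }
    let ψ : M →ₗ[O] (s → integralClosure O L) :=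
      { toFun := fun h i => ⟨act (h : LN G L) (b i), (hB _).1 (h.2.2 _ ((hB _).2 (hb i)))⟩
        map_add' := by
          intro h h'
          ext i
          simp [act_add]
        map_smul' := by
          intro r h
          ext i
          simp only [RingHom.id_apply, Pi.smul_apply]
          exact act_smul (r : K) (h : LN G L) (b i) }
    have hψ : Function.Injective ψ := by
      intro h h' hh
      have h1 : opK K (cf (h : LN G L)) = opK K (cf (h' : LN G L)) := by
        refine b.ext fun i => ?_
        have h2 := congrArg Subtype.val (congrFun hh i)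
        rw [opK_apply, opK_apply, ← act_eq, ← act_eq]
        exact h2
      have h3 := opK_injective K _ _ h1
      exact Subtype.ext (cf_injective h3)
    have hfin : Module.Finite O M := Module.Finite.of_injective ψ hψ
    obtain ⟨t, ht⟩ := Module.Finite.iff_fg.1 hfin
    refine ⟨t, ?_⟩
    rw [ht]
    rfl
  · apply le_antisymm
    · rw [Submodule.span_le]
      intro h hh
      exact hh.1
    · intro h hh
      obtain ⟨y, hy0, hy⟩ := exists_integral_multiples O K (L := L)
        (Finset.univ.image (cf h))
      have hy' : (y : K) ≠ 0 := by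
        intro h0
        exact hy0 (Subtype.ext h0)
      have h1 : (y : K) • h ∈ assocOrder G K B := by
        refine ⟨(Hlam G K L).smul_mem hh (y : K), fun x hx => ?_⟩
        rw [act_smul, act_eq, op, Finset.smul_sum]
        refine Subring.sum_mem _ fun g _ => ?_
        rw [← smul_mul_assoc]
        refine B.mul_mem ?_ ?_
        · rw [hB]
          exact hy _ (Finset.mem_image_of_mem _ (Finset.mem_univ _))
        · rw [hB]
          exact smul_integral (K := K) g⁻¹ ((hB x).1 hx)
      have h2 : h = (y : K)⁻¹ • ((y : K) • h) := by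
        rw [smul_smul, inv_mul_cancel₀ hy', one_smul]
      rw [h2]
      exact Submodule.smul_mem _ _ (Submodule.subset_span h1)

theorem assoc_maximal (hB : ∀ x, x ∈ B ↔ IsIntegral O x)
    (hn : IsUnit ((Fintype.card G : ℕ) : O))
    (Λ : Subring (LN G L)) (hΛ : IsOrder O (Hlam G K L) Λ) (hle : assocOrder G K B ≤ Λ) :
    Λ = assocOrder G K B := by
  classical
  have hGal : IsGalois K L := IsGaloisGroup.isGalois G K L
  refine le_antisymm ?_ hle
  intro h hh
  have hmemH : ∀ u ∈ Λ, u ∈ Hlam G K L := by
    intro u hu
    have : u ∈ Submodule.span K (Λ : Set (LN G L)) := Submodule.subset_span hu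
    rw [hΛ.span_eq] at this
    exact this
  have hhH := hmemH h hh
  refine ⟨hhH, fun x hx => ?_⟩
  rw [hB] at hx ⊢
  have hF : IsFractionRing (integralClosure O L) L :=
    integralClosure.isFractionRing_of_finite_extension K L
  have hD : IsDedekindDomain (integralClosure O L) := integralClosure.isDedekindDomain O K L
  let Λs : Subalgebra O (LN G L) :=
    { Λ with
      algebraMap_mem' := fun r => hΛ.algebraMap_mem (r : K) r.2 }
  have hfg : (Subalgebra.toSubmodule Λs).FG := by
    obtain ⟨s, hs⟩ := hΛ.fg
    exact ⟨s, SetLike.coe_injective hs⟩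
  -- the pairing
  have key : ∀ d : L, (∀ b : L, IsIntegral O b → IsIntegral O (Algebra.trace K L (d * b))) →
      IsIntegral O (Algebra.trace K L (d * act h x)) := by
    intro d hd
    have he : mk (elt x d) ∈ Hlam G K L := by
      rw [mem_Hlam, cf_mk]
      exact elt_eqv x d
    have he' : mk (elt x d) ∈ assocOrder G K B := by
      refine ⟨he, fun z hz => ?_⟩
      rw [hB] at hz ⊢
      rw [act_eq, cf_mk, op_elt (K := K)]
      refine IsIntegral.sum _ fun g _ => ?_
      refine IsIntegral.mul (smul_integral (K := K) g hx) ?_
      refine IsIntegral.algebraMap ?_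
      have h1 : Algebra.trace K L (g • d * z) = Algebra.trace K L (d * g⁻¹ • z) := by
        have h0 : g • (d * g⁻¹ • z) = g • d * z := by
          rw [smul_mul', smul_inv_smul]
        have h00 := Algebra.trace_eq_of_algEquiv (IsGaloisGroup.mulEquivAlgEquiv G K L g)
          (d * g⁻¹ • z)
        rw [← h00, ← h0]
        rfl
      rw [h1]
      exact hd _ (smul_integral (K := K) g⁻¹ hz)
    have hu : h * mk (elt x d) ∈ Λ := Λ.mul_mem hh (hle he')
    have hui : IsIntegral O (h * mk (elt x d)) := IsIntegral.of_mem_of_fg Λs hfg _ hu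
    have ht := trace_integral (h * mk (elt x d)) (hmemH _ hu) hui
    have h2 : algebraMap K L (LinearMap.trace K L (opK K (cf (h * mk (elt x d))))) =
        algebraMap K L ((Fintype.card G : K) * Algebra.trace K L (d * act h x)) := by
      rw [cf_mul, cf_mk, trace_opK, conv_elt (K := K) _ (mem_Hlam.1 hhH), act_eq]
      have h3 : ∀ g : G, g • algebraMap K L (Algebra.trace K L (d * op (cf h) x)) =
          algebraMap K L (Algebra.trace K L (d * op (cf h) x)) := by
        intro g
        exact smul_algebraMap g _
      simp [h3]
    have h4 := (algebraMap K L).injective h2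
    rw [h4] at ht
    obtain ⟨v, hv⟩ := hn.exists_left_inv
    have h5 : Algebra.trace K L (d * act h x) = algebraMap O K v *
        ((Fintype.card G : K) * Algebra.trace K L (d * act h x)) := by
      rw [← mul_assoc, ← map_natCast (algebraMap O K), ← map_mul, hv, map_one, one_mul]
    rw [h5]
    exact isIntegral_algebraMap.mul ht
  -- double dual
  have h6 : act h x ∈ FractionalIdeal.dual O K (FractionalIdeal.dual O K
      (1 : FractionalIdeal (integralClosure O L)⁰ L)) := by
    have h10 : (1 : FractionalIdeal (integralClosure O L)⁰ L) ≠ 0 := one_ne_zero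
    rw [FractionalIdeal.mem_dual (FractionalIdeal.dual_ne_zero O K h10)]
    intro d hd
    rw [FractionalIdeal.mem_dual h10] at hd
    rw [Algebra.traceForm_apply, mul_comm]
    apply IsIntegrallyClosed.isIntegral_iff.1
    apply key
    intro b hb
    have h7 := hd b (by
      rw [FractionalIdeal.mem_one_iff]
      exact ⟨⟨b, hb⟩, rfl⟩)
    rw [Algebra.traceForm_apply] at h7
    exact IsIntegrallyClosed.isIntegral_iff.2 h7
  rw [FractionalIdeal.dual_dual, FractionalIdeal.mem_one_iff] at h6
  obtain ⟨z, hz⟩ := h6
  rw [← hz]
  exact z.2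

theorem assoc_isMaximalOrder (hB : ∀ x, x ∈ B ↔ IsIntegral O x)
    (hn : IsUnit ((Fintype.card G : ℕ) : O)) :
    IsMaximalOrder O (Hlam G K L) (assocOrder G K B) :=
  ⟨assoc_isOrder hB, fun Λ h1 h2 => assoc_maximal hB hn Λ h1 h2⟩

end Generic

end Pool.Agent.R660.HG
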